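import Pool.Agent.TH901.H2A.Stm

/-!
# The relations of the 3-cells (piece UP of project ARH2)
-/

set_option autoImplicit false

namespace Pool.Agent.TH159.H2A.UP

open Pool.Agent.Helper741 Pool.Agent.TH901.H2A

section aux

variable {G : Type} [Group G]

/-- `h` commutes with `k` up to the central element `c` -/
def P (k h c : G) : Prop := h * k = c * (k * h) ∧ ∀ g, c * g = g * c

lemma P.mul {k h c h' c' : G} (H : P k h c) (H' : P k h' c') : P k (h * h') (c * c') := by
  obtain ⟨h1, hc⟩ := H
  obtain ⟨h2, hc'⟩ := H'
  refine ⟨?_, ?_⟩
  · calc h * h' * k = h * (h' * k) := by rw [mul_assoc]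
      _ = h * (c' * (k * h')) := by rw [h2]
      _ = (h * c') * (k * h') := by rw [mul_assoc]
      _ = (c' * h) * (k * h') := by rw [hc']
      _ = c' * ((h * k) * h') := by simp only [mul_assoc]
      _ = c' * ((c * (k * h)) * h') := by rw [h1]
      _ = (c' * c) * (k * (h * h')) := by simp only [mul_assoc]
      _ = (c * c') * (k * (h * h')) := by rw [hc' c]
  · intro g
    rw [mul_assoc, hc' g, ← mul_assoc, hc g, mul_assoc]

lemma P.pow {k h c : G} (H : P k h c) (n : ℕ) : P k (h ^ n) (c ^ n) := by
  induction n with
  | zero => exact ⟨by simp, by simp⟩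
  | succ n ih => rw [pow_succ, pow_succ]; exact ih.mul H

lemma P.unique {k h c c' w h' : G} (H : P k h c) (H' : P k h' c') (hw : h = w * h')
    (hwc : ∀ g, w * g = g * w) : c = c' := by
  have h1 := H.1
  have h2 := H'.1
  rw [hw] at h1
  have h3 : w * (h' * k) = w * (c * (k * h')) := by
    calc w * (h' * k) = w * h' * k := by rw [mul_assoc]
      _ = c * (k * (w * h')) := h1
      _ = c * ((k * w) * h') := by rw [mul_assoc k]
      _ = c * ((w * k) * h') := by rw [hwc]
      _ = (c * w) * (k * h') := by simp only [mul_assoc]
      _ = (w * c) * (k * h') := by rw [hwc]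
      _ = _ := by rw [mul_assoc]
  rw [h2] at h3
  exact (mul_right_cancel (mul_left_cancel h3)).symm

end aux

theorem up_of : Pool.Agent.TH901.H2A.S_up := by
  intro B M G _ f hc
  refine ⟨?_, ?_⟩
  · intro i j k hik hjk hodd
    obtain ⟨n, hn⟩ := hodd
    have hi : P (f k) (f i) (val M f i k) := by
      refine ⟨?_, hc i k⟩
      simp only [val, hik, alt_two]
      group
    have hj : P (f k) (f j) (val M f j k) := by
      refine ⟨?_, hc j k⟩
      simp only [val, hjk, alt_two]
      group
    have h1 := ((hi.mul hj).pow n).mul hi
    have h2 := ((hj.mul hi).pow n).mul hj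
    have h3 : (f i * f j) ^ n * f i = val M f i j * ((f j * f i) ^ n * f j) := by
      rw [val, hn, alt_mul_two_add_one, alt_mul_two_add_one]
      group
    have h4 := h1.unique h2 h3 (hc i j)
    rw [show val M f j k * val M f i k = val M f i k * val M f j k from hc j k _] at h4
    exact mul_left_cancel h4
  · intro i j k hik hij hjk
    set z := val M f i k with hz
    set z1 := val M f i j with hz1
    set z2 := val M f j k with hz2
    have cz : ∀ g, z * g = g * z := hc i k
    have cz1 : ∀ g, z1 * g = g * z1 := hc i j
    have cz2 : ∀ g, z2 * g = g * z2 := hc j k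
    have e0 : f i * f k = z * (f k * f i) := by
      rw [hz, val, hik, alt_two, alt_two]
      group
    have e1 : f i * f j * f i = z1 * (f j * f i * f j) := by
      rw [hz1, val, hij, show 3 = 2 * 1 + 1 from rfl, alt_mul_two_add_one, alt_mul_two_add_one,
        pow_one, pow_one]
      group
    have e2 : f j * f k * f j = z2 * (f k * f j * f k) := by
      rw [hz2, val, hjk, show 3 = 2 * 1 + 1 from rfl, alt_mul_two_add_one, alt_mul_two_add_one,
        pow_one, pow_one]
      group
    set a := f i with ha
    set b := f j with hb
    set c := f k with hcc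
    -- t a = z1 z2 c t
    have t1 : b * a * c * b * a = z1 * z2 * (c * (b * a * c * b)) := by
      calc b * a * c * b * a = b * (a * c) * (b * a) := by simp only [mul_assoc]
        _ = b * (z * (c * a)) * (b * a) := by rw [e0]
        _ = (b * z) * (c * (a * b * a)) := by simp only [mul_assoc]
        _ = (z * b) * (c * (z1 * (b * a * b))) := by rw [cz b, e1]
        _ = z * (b * (c * z1) * (b * a * b)) := by simp only [mul_assoc]
        _ = z * (b * (z1 * c) * (b * a * b)) := by rw [cz1 c]
        _ = z * ((b * z1) * (c * (b * a * b))) := by simp only [mul_assoc]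
        _ = z * ((z1 * b) * (c * (b * a * b))) := by rw [cz1 b]
        _ = z * (z1 * ((b * c * b) * (a * b))) := by simp only [mul_assoc]
        _ = z * (z1 * ((z2 * (c * b * c)) * (a * b))) := by rw [e2]
        _ = (z * (z1 * z2)) * (c * b * (c * a * b)) := by simp only [mul_assoc]
        _ = ((z1 * z2) * z) * (c * b * (c * a * b)) := by rw [cz]
        _ = (z1 * z2) * ((z * (c * b)) * (c * a * b)) := by simp only [mul_assoc]
        _ = (z1 * z2) * (((c * b) * z) * (c * a * b)) := by rw [cz (c * b)]
        _ = (z1 * z2) * (c * b * (z * (c * a)) * b) := by simp only [mul_assoc]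
        _ = (z1 * z2) * (c * b * (a * c) * b) := by rw [e0]
        _ = z1 * z2 * (c * (b * a * c * b)) := by simp only [mul_assoc]
    have t2 : z1 * z2 * (b * a * c * b * c) = a * (b * a * c * b) := by
      calc z1 * z2 * (b * a * c * b * c) = z1 * ((z2 * (b * a)) * (c * b * c)) := by
            simp only [mul_assoc]
        _ = z1 * (((b * a) * z2) * (c * b * c)) := by rw [cz2 (b * a)]
        _ = z1 * (b * a * (z2 * (c * b * c))) := by simp only [mul_assoc]
        _ = z1 * (b * a * (b * c * b)) := by rw [e2]
        _ = (z1 * (b * a * b)) * (c * b) := by simp only [mul_assoc]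
        _ = (a * b * a) * (c * b) := by rw [e1]
        _ = a * (b * a * c * b) := by simp only [mul_assoc]
    set t := b * a * c * b with ht
    have c12 : ∀ g, z1 * z2 * g = g * (z1 * z2) := by
      intro g
      rw [mul_assoc, cz2 g, ← mul_assoc, cz1 g, mul_assoc]
    -- t (a c) = c a t
    have t3 : t * (a * c) = c * a * t := by
      calc t * (a * c) = (t * a) * c := (mul_assoc _ _ _).symm
        _ = z1 * z2 * (c * t) * c := by rw [t1]
        _ = (z1 * z2 * c) * (t * c) := by simp only [mul_assoc]
        _ = (c * (z1 * z2)) * (t * c) := by rw [c12 c]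
        _ = c * (z1 * z2 * (t * c)) := by simp only [mul_assoc]
        _ = c * (a * t) := by rw [t2]
        _ = c * a * t := by rw [mul_assoc]
    have t4 : t * (c * a) = a * c * t := by
      have : z1 * z2 * (t * (c * a)) = z1 * z2 * (a * c * t) := by
        calc z1 * z2 * (t * (c * a)) = (z1 * z2 * (t * c)) * a := by simp only [mul_assoc]
          _ = (a * t) * a := by rw [t2]
          _ = a * (t * a) := by rw [mul_assoc]
          _ = a * (z1 * z2 * (c * t)) := by rw [t1]
          _ = (a * (z1 * z2)) * (c * t) := by simp only [mul_assoc]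
          _ = (z1 * z2 * a) * (c * t) := by rw [c12 a]
          _ = z1 * z2 * (a * c * t) := by simp only [mul_assoc]
      exact mul_left_cancel this
    have t5 : c * a * t = z * (z * (c * a * t)) := by
      calc c * a * t = t * (a * c) := t3.symm
        _ = t * (z * (c * a)) := by rw [e0]
        _ = (t * z) * (c * a) := (mul_assoc _ _ _).symm
        _ = (z * t) * (c * a) := by rw [cz t]
        _ = z * (t * (c * a)) := mul_assoc _ _ _
        _ = z * (a * c * t) := by rw [t4]
        _ = z * ((z * (c * a)) * t) := by rw [e0]
        _ = z * (z * (c * a * t)) := by rw [mul_assoc z]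
    have t6 : (1 : G) * (c * a * t) = (z * z) * (c * a * t) := by
      rw [one_mul, mul_assoc z z]; exact t5
    exact (mul_right_cancel t6).symm

end Pool.Agent.TH159.H2A.UP
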